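import Pool.Agent.Q295.PN.StmK

/-!
# Project PN: indicators of positive geometric weights are Bernoulli
-/

set_option autoImplicit false

namespace Pool.Agent.Q241.PN

open MeasureTheory ProbabilityTheory Finset
open Pool.Agent.W533.LP Pool.Agent.Q295.PN

/-- Job KP. -/
theorem kp : S_KP := by
  intro Ω _ μ q W m n F hq0 hq1 hB
  haveI := hB.prob
  have hmW : ∀ v : Fin m × Fin n, Measurable (W v.1 v.2) :=
    fun v => hB.meas ((v.1 : ℕ), (v.2 : ℕ))
  set D : Ω → (Fin m × Fin n → Bool) := fun ω v => decide (1 ≤ W v.1 v.2 ω) with hD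
  have hdm : Measurable (fun k : ℕ => decide (1 ≤ k)) := measurable_of_countable _
  have hDm : Measurable D := by
    refine measurable_pi_lambda _ (fun v => ?_)
    exact hdm.comp (hmW v)
  have hP : ∀ v : Fin m × Fin n, ∀ b : Bool,
      μ.real {ω | decide (1 ≤ W v.1 v.2 ω) = b} = if b = true then q else 1 - q := by
    intro v b
    have h0 : μ.real {ω | W v.1 v.2 ω = 0} = 1 - q := by
      have := hB.law ((v.1 : ℕ), (v.2 : ℕ)) 0
      simpa using this
    have hm0 : MeasurableSet {ω | W v.1 v.2 ω = 0} := (hmW v) (measurableSet_singleton 0)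
    cases b with
    | false =>
      have : {ω | decide (1 ≤ W v.1 v.2 ω) = false} = {ω | W v.1 v.2 ω = 0} := by
        ext ω
        simp
      rw [this, h0]
      simp
    | true =>
      have : {ω | decide (1 ≤ W v.1 v.2 ω) = true} = {ω | W v.1 v.2 ω = 0}ᶜ := by
        ext ω
        simp [Nat.one_le_iff_ne_zero]
      rw [this, probReal_compl_eq_one_sub hm0, h0]
      simp
  have hind : iIndepFun (fun (v : Fin m × Fin n) (ω : Ω) => decide (1 ≤ W v.1 v.2 ω)) μ := by
    have h1 : iIndepFun (fun v : Fin m × Fin n => W v.1 v.2) μ :=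
      hB.indep.precomp (g := fun v : Fin m × Fin n => ((v.1 : ℕ), (v.2 : ℕ))) (by
        intro a b hab
        simp only [Prod.mk.injEq] at hab
        exact Prod.ext (Fin.ext hab.1) (Fin.ext hab.2))
    exact h1.comp (fun _ k => decide (1 ≤ k)) (fun _ => hdm)
  have hK : ∀ κ : Fin m × Fin n → Bool, (μ.map D).real {κ} = wt q κ := by
    intro κ
    rw [map_measureReal_apply hDm (measurableSet_singleton κ)]
    have hset : D ⁻¹' {κ} = ⋂ v ∈ (Finset.univ : Finset (Fin m × Fin n)),
        (fun ω => decide (1 ≤ W v.1 v.2 ω)) ⁻¹' {κ v} := by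
      ext ω
      simp only [Set.mem_preimage, Set.mem_singleton_iff, Finset.mem_univ, Set.iInter_true,
        Set.mem_iInter]
      constructor
      · intro h v
        rw [← h]
      · intro h
        funext v
        exact h v
    rw [hset, measureReal_def, hind.measure_inter_preimage_eq_mul Finset.univ
      (fun v _ => measurableSet_singleton (κ v)), ENNReal.toReal_prod]
    unfold wt
    refine Finset.prod_congr rfl (fun v _ => ?_)
    have := hP v (κ v)
    rw [measureReal_def] at this
    exact this
  have h1 : ∫ ω, F (D ω) ∂μ = ∫ κ, F κ ∂(μ.map D) :=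
    (integral_map hDm.aemeasurable (measurable_of_finite F).aestronglyMeasurable).symm
  haveI : IsProbabilityMeasure (μ.map D) := Measure.isProbabilityMeasure_map hDm.aemeasurable
  change ∫ ω, F (D ω) ∂μ = Ex q F
  rw [h1, integral_fintype Integrable.of_finite]
  unfold Ex
  refine Finset.sum_congr rfl (fun κ _ => ?_)
  rw [hK κ, smul_eq_mul]

end Pool.Agent.Q241.PN
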