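import Pool.Agent.Q295.PN.StmA

/-! # Project PN (helper295), job SC: Schur test for iterates of a kernel -/

set_option autoImplicit false

namespace Pool.Agent.Q241.PN

open Finset Pool.Agent.Q295.PN

theorem sc : S_SC := by
  intro ι _ k v f i hv hk h1 h2
  have step : ∀ g : ι → ℝ, ∑ x, (ak k g x) ^ 2 ≤ v ^ 2 * ∑ x, (g x) ^ 2 := by
    intro g
    have hx : ∀ x, (ak k g x) ^ 2 ≤ v * ∑ z, k x z * (g z) ^ 2 := by
      intro x
      have hc := Finset.sum_mul_sq_le_sq_mul_sq univ (fun z => √(k x z)) (fun z => √(k x z) * g z)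
      have e1 : ∑ z, √(k x z) * (√(k x z) * g z) = ak k g x := by
        unfold ak
        refine sum_congr rfl fun z _ => ?_
        rw [← mul_assoc, Real.mul_self_sqrt (hk x z)]
      have e2 : ∑ z, √(k x z) ^ 2 = ∑ z, k x z :=
        sum_congr rfl fun z _ => Real.sq_sqrt (hk x z)
      have e3 : ∑ z, (√(k x z) * g z) ^ 2 = ∑ z, k x z * (g z) ^ 2 := by
        refine sum_congr rfl fun z _ => ?_
        rw [mul_pow, Real.sq_sqrt (hk x z)]
      rw [e1, e2, e3] at hc
      refine hc.trans (mul_le_mul_of_nonneg_right (h1 x) ?_)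
      exact sum_nonneg fun z _ => mul_nonneg (hk x z) (sq_nonneg _)
    calc ∑ x, (ak k g x) ^ 2 ≤ ∑ x, v * ∑ z, k x z * (g z) ^ 2 := sum_le_sum fun x _ => hx x
      _ = v * ∑ z, (∑ x, k x z) * (g z) ^ 2 := by
          rw [← mul_sum, sum_comm]
          congr 1
          refine sum_congr rfl fun z _ => ?_
          rw [sum_mul]
      _ ≤ v * ∑ z, v * (g z) ^ 2 := by
          refine mul_le_mul_of_nonneg_left ?_ hv
          exact sum_le_sum fun z _ => mul_le_mul_of_nonneg_right (h2 z) (sq_nonneg _)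
      _ = v ^ 2 * ∑ x, (g x) ^ 2 := by
          rw [← mul_sum]
          ring
  induction i with
  | zero =>
    simp [itk]
  | succ i ih =>
    have h3 := step (itk k f i)
    have h4 : ∑ x, (itk k f (i + 1) x) ^ 2 = ∑ x, (ak k (itk k f i) x) ^ 2 := rfl
    rw [h4]
    refine h3.trans ?_
    have h5 := mul_le_mul_of_nonneg_left ih (sq_nonneg v)
    refine h5.trans (le_of_eq ?_)
    ring

end Pool.Agent.Q241.PN
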